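import Pool.Agent.Helper27.PHV.Defs

/-!
# MP_8bf717_co, project PHV: the balanced gables

`cov_sep`: roof and floor balanced separately; `cov_mix`: only the roof is turned.
-/

set_option autoImplicit false

open MeasureTheory Set

namespace Pool.Agent.Helper95.PHV

open Pool.Agent.Helper37.PH Pool.Agent.Helper61.PH Pool.Agent.Helper27.PHU
open Pool.Agent.Helper27.PHV

/-- area under a roof whose right line is turned by `δ` at the right wall -/
theorem gen_area {a c lam rho e f κ δ : ℝ} (ha : 0 < a) (hc : 0 < c) (hc1 : c < 1)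
    (hl : 0 ≤ lam) (hr : 0 ≤ rho) (hκ : -(a / (1 - c)) ≤ κ)
    (hs : (κ + a / (1 - c)) * (1 + rho - (c + (1 - c) * f / a)) = δ) :
    (1 - a + e) * ((c - (1 - c) * (c * e / a) + c * ((1 - c) * f / a)) - -lam)
      + a / c * ((c - (1 - c) * (c * e / a) + c * ((1 - c) * f / a)) ^ 2 - (-lam) ^ 2) / 2
      + (1 - κ * (c + (1 - c) * f / a)) *
        ((1 + rho) - (c - (1 - c) * (c * e / a) + c * ((1 - c) * f / a)))
      + κ * ((1 + rho) ^ 2 - (c - (1 - c) * (c * e / a) + c * ((1 - c) * f / a)) ^ 2) / 2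
    ≤ (1 + lam + rho) - (1 + lam + rho) ^ 2 * a / 2
      + (1 + lam + rho) ^ 2 * gg c lam rho e f / 2
      - (1 + lam + rho) ^ 2 * (pp (2 * a) c * xi a c lam rho e f ^ 2) / 4
      + δ * (1 + rho - (c + (1 - c) * f / a)) / 2 := by
  obtain ⟨e', rfl⟩ : ∃ e', e = a * e' := ⟨e / a, by field_simp⟩
  obtain ⟨f', rfl⟩ : ∃ f', f = a * f' := ⟨f / a, by field_simp⟩
  have hc' : (0 : ℝ) < 1 - c := by linarith
  have hW : (0 : ℝ) < 1 + lam + rho := by linarith
  have h1 : c * (a * e') / a = c * e' := by field_simp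
  have h2 : (1 - c) * (a * f') / a = (1 - c) * f' := by field_simp
  subst hs
  rw [h1, h2]
  have key : 0 ≤ (κ + a / (1 - c)) * ((1 - c) ^ 2 * (c * e' + (1 - c) * f') ^ 2) / 2 := by
    have : 0 ≤ κ + a / (1 - c) := by linarith
    positivity
  have e3 : (1 + lam + rho) ^ 2 * gg c lam rho (a * e') (a * f') =
      (1 + lam + rho) * (2 * (c * (a * e') + (1 - c) * (a * f'))) := by
    unfold gg
    field_simp
  have e4 : (1 + lam + rho) ^ 2 * (pp (2 * a) c * xi a c lam rho (a * e') (a * f') ^ 2) =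
      2 * a * c / (1 - c) * ((1 - c) * (e' - f') - (1 - c) / c * lam + rho) ^ 2 := by
    unfold pp xi
    field_simp
  rw [e3, e4]
  have e5 : (1 + lam + rho) - (1 + lam + rho) ^ 2 * a / 2
      + (1 + lam + rho) * (2 * (c * (a * e') + (1 - c) * (a * f'))) / 2
      - 2 * a * c / (1 - c) * ((1 - c) * (e' - f') - (1 - c) / c * lam + rho) ^ 2 / 4
      + (κ + a / (1 - c)) * (1 + rho - (c + (1 - c) * f')) *
        (1 + rho - (c + (1 - c) * f')) / 2
      - ((1 - a + a * e') * ((c - (1 - c) * (c * e') + c * ((1 - c) * f')) - -lam)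
      + a / c * ((c - (1 - c) * (c * e') + c * ((1 - c) * f')) ^ 2 - (-lam) ^ 2) / 2
      + (1 - κ * (c + (1 - c) * f')) *
        ((1 + rho) - (c - (1 - c) * (c * e') + c * ((1 - c) * f')))
      + κ * ((1 + rho) ^ 2 - (c - (1 - c) * (c * e') + c * ((1 - c) * f')) ^ 2) / 2)
      = (κ + a / (1 - c)) * ((1 - c) ^ 2 * (c * e' + (1 - c) * f') ^ 2) / 2 := by
    field_simp
    ring
  linarith

/-- the unbalance -/
theorem xi_eq {a c lam rho e f : ℝ} (ha : 0 < a) (hc : 0 < c) (hc1 : c < 1)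
    (hl : 0 ≤ lam) (hr : 0 ≤ rho) :
    (1 - a + e - a / c * lam) - (1 - a + f - a / (1 - c) * rho) =
      (1 + lam + rho) * xi a c lam rho e f * (a / (1 - c)) := by
  have hc' : (0 : ℝ) < 1 - c := by linarith
  have hW : (0 : ℝ) < 1 + lam + rho := by linarith
  unfold xi
  field_simp
  ring

theorem bal_eq {a c lam rho e f : ℝ} (ha : 0 < a) (hc : 0 < c) (hc1 : c < 1)
    (hl : 0 ≤ lam) (hr : 0 ≤ rho) :
    - (1 + lam + rho) ^ 2 * (pp (2 * a) c * xi a c lam rho e f ^ 2) / 4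
      + ((1 + lam + rho) * xi a c lam rho e f * (a / (1 - c))) *
        (1 + rho - (c + (1 - c) * f / a)) / 2 =
    (1 + lam + rho) ^ 2 * (2 * a * xi a c lam rho e f
      - gg c lam rho e f * xi a c lam rho e f) / 4 := by
  have hc' : (0 : ℝ) < 1 - c := by linarith
  have hW : (0 : ℝ) < 1 + lam + rho := by linarith
  unfold xi pp gg
  field_simp
  ring

theorem wall_eq {a c rho f : ℝ} (ha : 0 < a) (hc1 : c < 1) :
    a / (1 - c) * (1 + rho - (c + (1 - c) * f / a)) = 1 - (1 - a + f - a / (1 - c) * rho) := by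
  have hc' : (0 : ℝ) < 1 - c := by linarith
  field_simp
  ring

theorem exists_slope {m s δ : ℝ} (hm : 0 < m) (hs : 0 ≤ s) (h0 : 0 ≤ δ) (h1 : δ ≤ m * s) :
    ∃ κ : ℝ, -m ≤ κ ∧ κ ≤ 0 ∧ (κ + m) * s = δ := by
  rcases hs.eq_or_lt with h | h
  · refine ⟨-m, le_rfl, by linarith, ?_⟩
    rw [← h] at h1 ⊢
    linarith
  · refine ⟨δ / s - m, by linarith [div_nonneg h0 hs], ?_, by field_simp; ring⟩
    have : δ / s ≤ m := (div_le_iff₀ h).2 h1
    linarith

/-- the right roof line reaches the wall below the level `1` -/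
theorem s_nonneg {a c rho f : ℝ} (ha : 0 < a) (hc1 : c < 1) (hr : 0 ≤ rho) (hf : f ≤ a) :
    0 ≤ 1 + rho - (c + (1 - c) * f / a) := by
  have h1 : (1 - c) * f / a ≤ 1 - c := by
    rw [div_le_iff₀ ha]
    exact mul_le_mul_of_nonneg_left hf (by linarith)
  linarith

/-- a point under the flush right line is under the turned line -/
theorem under {a c f κ X Y : ℝ} (ha : 0 < a) (hc1 : c < 1)
    (hκ : -(a / (1 - c)) ≤ κ) (hκ0 : κ ≤ 0) (hY : Y ≤ 1)
    (hfl : Y ≤ 1 - a + a * ((1 - X) / (1 - c)) + f) :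
    Y ≤ (1 - κ * (c + (1 - c) * f / a)) + κ * X := by
  have hc' : (0 : ℝ) < 1 - c := by linarith
  have e1 : 1 - a + a * ((1 - X) / (1 - c)) + f =
      1 - a / (1 - c) * (X - (c + (1 - c) * f / a)) := by
    field_simp
    ring
  rw [e1] at hfl
  rcases le_total X (c + (1 - c) * f / a) with h | h
  · have := mul_nonneg_of_nonpos_of_nonpos hκ0 (by linarith : X - (c + (1 - c) * f / a) ≤ 0)
    linarith
  · have := mul_nonneg (by linarith : 0 ≤ κ + a / (1 - c))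
      (by linarith : 0 ≤ X - (c + (1 - c) * f / a))
    linarith

theorem kink_mem {a c e f : ℝ} (ha : 0 < a) (hc : 0 < c) (hc1 : c < 1)
    (he : 0 ≤ e) (he1 : e ≤ a) (hf : 0 ≤ f) (hf1 : f ≤ a) :
    0 ≤ c - (1 - c) * (c * e / a) + c * ((1 - c) * f / a) ∧
      c - (1 - c) * (c * e / a) + c * ((1 - c) * f / a) ≤ 1 := by
  have hc' : (0 : ℝ) < 1 - c := by linarith
  have h1 : c * e / a ≤ c := by
    rw [div_le_iff₀ ha]
    exact mul_le_mul_of_nonneg_left he1 hc.le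
  have h1' : 0 ≤ c * e / a := by positivity
  have h2 : (1 - c) * f / a ≤ 1 - c := by
    rw [div_le_iff₀ ha]
    exact mul_le_mul_of_nonneg_left hf1 hc'.le
  have h2' : 0 ≤ (1 - c) * f / a := by positivity
  have h3 := mul_le_mul_of_nonneg_left h1 hc'.le
  have h3' := mul_nonneg hc'.le h1'
  have h4 := mul_le_mul_of_nonneg_left h2 hc.le
  have h4' := mul_nonneg hc.le h2'
  constructor <;> nlinarith

/-- roof and floor turned by `δa`, `δb` at the right wall, which makes the walls equal -/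
theorem cov_bal {K : Set (ℝ × ℝ)}
    {b c1 c2 r1 r2 l1 l2 lam rho e1 f1 e2 f2 W T S G H P Q A B X δa δb : ℝ}
    (h : Frame K b c1 c2 r1 r2 l1 l2) (hf : Feat K b c1 c2 lam rho e1 f1 e2 f2)
    (hR : Red b c1 c2 lam rho e1 f1 e2 f2 W T S G H P Q A B X)
    (ha0 : 0 ≤ δa)
    (ha1 : δa ≤ (1 / 2 - b) / (1 - c1) * (1 + rho - (c1 + (1 - c1) * f1 / (1 / 2 - b))))
    (hb0 : 0 ≤ δb) (hb1 : δb ≤ b / (1 - c2) * (1 + rho - (c2 + (1 - c2) * f2 / b)))
    (hw : W * A * ((1 / 2 - b) / (1 - c1)) + W * B * (b / (1 - c2)) = δa + δb) :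
    Cov K (W - W ^ 2 / 4 + W ^ 2 * (G + H) / 2
      + (-W ^ 2 * (P * A ^ 2) / 4 + δa * (1 + rho - (c1 + (1 - c1) * f1 / (1 / 2 - b))) / 2)
      + (-W ^ 2 * (Q * B ^ 2) / 4 + δb * (1 + rho - (c2 + (1 - c2) * f2 / b)) / 2)) := by
  have hb := h.b0
  have ha : 0 < 1 / 2 - b := by linarith [h.b1]
  have hc1 := h.c10
  have hc1' : 0 < 1 - c1 := by linarith [h.c11]
  have hc2 := h.c20
  have hc2' : 0 < 1 - c2 := by linarith [h.c21]
  obtain ⟨κa, ka1, ka0, kas⟩ := exists_slope (div_pos ha hc1')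
    (s_nonneg ha h.c11 hf.rho0 hf.f11) ha0 ha1
  obtain ⟨κb, kb1, kb0, kbs⟩ := exists_slope (div_pos hb hc2')
    (s_nonneg hb h.c21 hf.rho0 hf.f21) hb0 hb1
  have xA := xi_eq (e := e1) (f := f1) ha hc1 h.c11 hf.lam0 hf.rho0
  have xB := xi_eq (e := e2) (f := f2) hb hc2 h.c21 hf.lam0 hf.rho0
  have kA := kink_mem ha hc1 h.c11 hf.e10 hf.e11 hf.f10 hf.f11
  have kB := kink_mem hb hc2 h.c21 hf.e20 hf.e21 hf.f20 hf.f21
  have sA := s_nonneg ha h.c11 hf.rho0 hf.f11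
  have sB := s_nonneg hb h.c21 hf.rho0 hf.f21
  have eW := hR.eW
  have hWp : 0 < W := by rw [eW]; linarith [hf.lam0, hf.rho0]
  rw [← eW] at xA xB
  rw [← hR.eA] at xA
  rw [← hR.eB] at xB
  have hl := hf.lam0
  have hr := hf.rho0
  have m1 : 0 < (1 / 2 - b) / c1 := div_pos ha hc1
  have n1 : 0 < b / c2 := div_pos hb hc2
  -- tops and bottoms
  have q1 : 0 ≤ (1 / 2 - b) / c1 * lam := by positivity
  have q2 : 0 ≤ b / c2 * lam := by positivity
  have y1 : 0 ≤ (1 - c1) * f1 / (1 / 2 - b) := div_nonneg (mul_nonneg hc1'.le hf.f10) ha.le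
  have y2 : 0 ≤ (1 - c2) * f2 / b := div_nonneg (mul_nonneg hc2'.le hf.f20) hb.le
  have z1 := mul_nonneg_of_nonpos_of_nonpos ka0
    (by linarith : -lam - (c1 + (1 - c1) * f1 / (1 / 2 - b)) ≤ 0)
  have z2 := mul_nonneg_of_nonpos_of_nonpos kb0
    (by linarith : -lam - (c2 + (1 - c2) * f2 / b) ≤ 0)
  have z3 := mul_nonneg (neg_nonneg.2 ka0) sA
  have z4 := mul_nonneg (neg_nonneg.2 kb0) sB
  have w1 : (1 / 2 - b) ≤ (1 / 2 - b) / c1 * (1 + rho) := by
    rw [div_mul_eq_mul_div, le_div_iff₀ hc1]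
    nlinarith [h.c11]
  have w2 : b ≤ b / c2 * (1 + rho) := by
    rw [div_mul_eq_mul_div, le_div_iff₀ hc2]
    nlinarith [h.c21]
  have t1 := wall_eq (rho := rho) (f := f1) ha h.c11
  have t2 := wall_eq (rho := rho) (f := f2) hb h.c21
  obtain ⟨yl, hyl⟩ := hf.xl
  have o1 := hf.tl _ hyl
  have o2 := hf.bl _ hyl
  simp only at o1 o2
  have o1' : (1 / 2 - b) * (-lam / c1) = -((1 / 2 - b) / c1 * lam) := by ring
  have o2' : b * (-lam / c2) = -(b / c2 * lam) := by ring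
  rw [o1'] at o1
  rw [o2'] at o2
  refine Pool.Agent.Helper85.PHU.cov_gable (X0 := -lam) (X1 := 1 + rho)
    (a1 := 1 - (1 / 2 - b) + e1) (b1 := (1 / 2 - b) / c1)
    (a2 := 1 - κa * (c1 + (1 - c1) * f1 / (1 / 2 - b))) (b2 := κa)
    (c1 := b - e2) (d1 := -(b / c2))
    (c2 := κb * (c2 + (1 - c2) * f2 / b)) (d2 := -κb)
    (p := c1 - (1 - c1) * (c1 * e1 / (1 / 2 - b)) + c1 * ((1 - c1) * f1 / (1 / 2 - b)))
    (q := c2 - (1 - c2) * (c2 * e2 / b) + c2 * ((1 - c2) * f2 / b))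
    (by linarith) ?_ ?_ ?_ ?_ ?_ ?_ ?_ ?_ ?_ ?_ ?_ ?_
  · intro z hz
    refine ⟨hf.hl z hz, hf.hr z hz, ?_, ?_, ?_, ?_⟩
    · have := hf.tl z hz
      have e : (1 / 2 - b) / c1 * z.1 = (1 / 2 - b) * (z.1 / c1) := by ring
      linarith
    · apply under ha h.c11 ka1 ka0 (h.top z hz)
      have := hf.tr z hz
      linarith
    · have := hf.bl z hz
      have e : b / c2 * z.1 = b * (z.1 / c2) := by ring
      linarith
    · have := under (Y := 1 - z.2) (X := z.1) hb h.c21 kb1 kb0 (by linarith [h.bot z hz])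
        (f := f2) (by have := hf.br z hz; linarith)
      linarith
  · linarith only [hf.e11, z1, q1]
  · linarith only [hf.e10, z3, w1]
  · linarith only [hf.e21, z2, q2]
  · linarith only [hf.e20, z4, w2]
  · linarith only [xA, xB, kas, kbs, t1, t2, hw]
  · linarith only [o1, o2]
  · linarith only [kA.1, hl]
  · linarith only [kA.2, hr]
  · linarith only [kB.1, hl]
  · linarith only [kB.2, hr]
  · clear hw z1 z2 z3 z4 w1 w2 t1 t2 o1 o2 hyl xA xB kA kB y1 y2 q1 q2 o1' o2' ha1 hb1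
    have gA := gen_area (lam := lam) (e := e1) ha hc1 h.c11 hf.lam0 hf.rho0 ka1 kas
    have gB := gen_area (lam := lam) (e := e2) hb hc2 h.c21 hf.lam0 hf.rho0 kb1 kbs
    rw [← eW] at gA gB
    rw [← hR.eA] at gA
    rw [← hR.eB] at gB
    rw [← hR.eG, show 2 * (1 / 2 - b) = 1 - 2 * b by ring, ← hR.eP] at gA
    rw [← hR.eH, ← hR.eQ] at gB
    generalize c1 - (1 - c1) * (c1 * e1 / (1 / 2 - b)) + c1 * ((1 - c1) * f1 / (1 / 2 - b)) = p
      at gA ⊢
    generalize c2 - (1 - c2) * (c2 * e2 / b) + c2 * ((1 - c2) * f2 / b) = q at gB ⊢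
    generalize c1 + (1 - c1) * f1 / (1 / 2 - b) = qr at gA ⊢
    generalize c2 + (1 - c2) * f2 / b = ur at gB ⊢
    linarith only [gA, gB, eW]

/-- roof and floor balanced separately -/
theorem cov_sep {K : Set (ℝ × ℝ)}
    {b c1 c2 r1 r2 l1 l2 lam rho e1 f1 e2 f2 W T S G H P Q A B X : ℝ}
    (h : Frame K b c1 c2 r1 r2 l1 l2) (hf : Feat K b c1 c2 lam rho e1 f1 e2 f2)
    (hR : Red b c1 c2 lam rho e1 f1 e2 f2 W T S G H P Q A B X) (hA : 0 ≤ A) (hB : 0 ≤ B) :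
    Cov K (ar W (G + H) (T * A + S * B - G * A - H * B)) := by
  have hb := h.b0
  have ha : 0 < 1 / 2 - b := by linarith [h.b1]
  have hc1' : 0 < 1 - c1 := by linarith [h.c11]
  have hc2' : 0 < 1 - c2 := by linarith [h.c21]
  have eW := hR.eW
  have hWp : 0 < W := by rw [eW]; linarith [hf.lam0, hf.rho0]
  have xA := xi_eq (e := e1) (f := f1) ha h.c10 h.c11 hf.lam0 hf.rho0
  have xB := xi_eq (e := e2) (f := f2) hb h.c20 h.c21 hf.lam0 hf.rho0
  have bA := bal_eq (e := e1) (f := f1) ha h.c10 h.c11 hf.lam0 hf.rho0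
  have bB := bal_eq (e := e2) (f := f2) hb h.c20 h.c21 hf.lam0 hf.rho0
  have t1 := wall_eq (rho := rho) (f := f1) ha h.c11
  have t2 := wall_eq (rho := rho) (f := f2) hb h.c21
  rw [← eW, ← hR.eA] at xA bA
  rw [← eW, ← hR.eB] at xB bB
  rw [← hR.eG, show 2 * (1 / 2 - b) = 1 - 2 * b by ring, ← hR.eP] at bA
  rw [← hR.eH, ← hR.eQ] at bB
  have q1 : 0 ≤ (1 / 2 - b) / c1 * lam := mul_nonneg (div_pos ha h.c10).le hf.lam0
  have q2 : 0 ≤ b / c2 * lam := mul_nonneg (div_pos hb h.c20).le hf.lam0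
  have he1 := hf.e11
  have he2 := hf.e21
  have hm1 : 0 ≤ (1 / 2 - b) / (1 - c1) := (div_pos ha hc1').le
  have hn1 : 0 ≤ b / (1 - c2) := (div_pos hb hc2').le
  have hC := cov_bal (δa := W * A * ((1 / 2 - b) / (1 - c1))) (δb := W * B * (b / (1 - c2)))
    h hf hR (mul_nonneg (mul_nonneg hWp.le hA) hm1) (by linarith)
    (mul_nonneg (mul_nonneg hWp.le hB) hn1) (by linarith) rfl
  rw [bA, bB] at hC
  refine Pool.Agent.Helper83.PHU.cov_mono hC le_rfl (le_of_eq ?_)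
  rw [hR.eT, hR.eS]
  unfold ar
  ring

/-- only the roof is turned -/
theorem cov_mix {K : Set (ℝ × ℝ)}
    {b c1 c2 r1 r2 l1 l2 lam rho e1 f1 e2 f2 W T S G H P Q A B X : ℝ}
    (h : Frame K b c1 c2 r1 r2 l1 l2) (hf : Feat K b c1 c2 lam rho e1 f1 e2 f2)
    (hR : Red b c1 c2 lam rho e1 f1 e2 f2 W T S G H P Q A B X) (hA : 0 ≤ A) (hB : B ≤ 0)
    (hAB : 0 ≤ A * (T + P) + B * (S + Q)) :
    Cov K (ar W (G + H) (T * A - G * A)) := by
  have hb := h.b0
  have ha : 0 < 1 / 2 - b := by linarith [h.b1]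
  have hc1' : 0 < 1 - c1 := by linarith [h.c11]
  have hc2' : 0 < 1 - c2 := by linarith [h.c21]
  have eW := hR.eW
  have hWp : 0 < W := by rw [eW]; linarith [hf.lam0, hf.rho0]
  have xA := xi_eq (e := e1) (f := f1) ha h.c10 h.c11 hf.lam0 hf.rho0
  have bA := bal_eq (e := e1) (f := f1) ha h.c10 h.c11 hf.lam0 hf.rho0
  have t1 := wall_eq (rho := rho) (f := f1) ha h.c11
  have sA := s_nonneg ha h.c11 hf.rho0 hf.f11
  have sB := s_nonneg hb h.c21 hf.rho0 hf.f21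
  rw [← eW, ← hR.eA] at xA bA
  rw [← hR.eG, show 2 * (1 / 2 - b) = 1 - 2 * b by ring, ← hR.eP] at bA
  have q1 : 0 ≤ (1 / 2 - b) / c1 * lam := mul_nonneg (div_pos ha h.c10).le hf.lam0
  have he1 := hf.e11
  have hm1 : 0 ≤ (1 / 2 - b) / (1 - c1) := (div_pos ha hc1').le
  have hn1 : 0 < b / (1 - c2) := div_pos hb hc2'
  have eTP : T + P = 2 * ((1 / 2 - b) / (1 - c1)) := by
    rw [hR.eT, hR.eP]
    unfold pp
    field_simp
    ring
  have eSQ : S + Q = 2 * (b / (1 - c2)) := by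
    rw [hR.eS, hR.eQ]
    unfold pp
    field_simp
    ring
  rw [eTP, eSQ] at hAB
  have hq : 0 ≤ Q := by
    rw [hR.eQ]
    unfold pp
    exact div_nonneg (mul_nonneg (by linarith) h.c20.le) hc2'.le
  have hBn : W * B * (b / (1 - c2)) ≤ 0 :=
    mul_nonpos_of_nonpos_of_nonneg (mul_nonpos_of_nonneg_of_nonpos hWp.le hB) hn1.le
  have hd : 0 ≤ W * A * ((1 / 2 - b) / (1 - c1)) + W * B * (b / (1 - c2)) := by
    have := mul_nonneg hWp.le hAB
    linarith
  have hC := cov_bal (δa := W * A * ((1 / 2 - b) / (1 - c1)) + W * B * (b / (1 - c2)))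
    (δb := 0) h hf hR hd (by linarith) le_rfl (mul_nonneg hn1.le sB) (by ring)
  refine Pool.Agent.Helper83.PHU.cov_mono hC le_rfl ?_
  have k1 : 0 ≤ W ^ 2 * (Q * B ^ 2) := by positivity
  have k2 := mul_nonneg (neg_nonneg.2 hBn) sA
  have e : ar W (G + H) (T * A - G * A) =
      W - W ^ 2 / 4 + W ^ 2 * (G + H) / 2 + W ^ 2 * (T * A - G * A) / 4 := rfl
  rw [e, hR.eT]
  rw [show 1 - 2 * b = 1 - 2 * b from rfl] at bA
  linarith

end Pool.Agent.Helper95.PHV
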